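import Pool.Agent.W348.RG.Tor

/-!
# Residual finiteness growth of all finitely generated nilpotent groups

The residual finiteness growth of a finitely generated nilpotent group `G` (torsion is allowed) is
equivalent to a power of the logarithm; the exponent is determined by the complexified Mal'cev Lie
algebra of the quotient of `G` by its finite torsion subgroup. So the growth is the same for all
groups with isomorphic real or complex Mal'cev completions.
-/

set_option autoImplicit false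

namespace Pool.Agent.Results.MP_f60e8a_al.AllNilpotentGroups

open Pool.Agent.W348.RG

/-- The residual finiteness growth of finitely generated nilpotent groups. -/
theorem result :
    (∀ (G : Type) [Group G] [Group.IsNilpotent G] [Group.FG G],
      ∃ (T : Subgroup G) (_ : T.Normal), Finite T ∧ Nonempty (UniRep (G ⧸ T))) ∧
    (∀ (G : Type) [Group G] [Group.IsNilpotent G] [Nontrivial G] (T : Subgroup G) [T.Normal]
      [Finite T] (r : UniRep (G ⧸ T)) (S : Finset G), Gen S →
      LogPow (RF (S : Set G)) (kc r)) ∧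
    (∀ (G₁ G₂ : Type) [Group G₁] [Group G₂] [Group.IsNilpotent G₁] [Group.IsNilpotent G₂]
      [Nontrivial G₁] [Nontrivial G₂] (T₁ : Subgroup G₁) (T₂ : Subgroup G₂) [T₁.Normal]
      [T₂.Normal] [Finite T₁] [Finite T₂] (r₁ : UniRep (G₁ ⧸ T₁)) (r₂ : UniRep (G₂ ⧸ T₂))
      (S₁ : Finset G₁) (S₂ : Finset G₂), Gen S₁ → Gen S₂ → SameC r₁ r₂ →
      Dom (RF (S₁ : Set G₁)) (RF (S₂ : Set G₂)) ∧
      Dom (RF (S₂ : Set G₂)) (RF (S₁ : Set G₁))) :=
  ⟨fun G _ _ _ => jenT G, fun G _ _ _ T _ _ r S hS => bndT G T r S hS,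
    fun G₁ G₂ _ _ _ _ _ _ T₁ T₂ _ _ _ _ r₁ r₂ S₁ S₂ h₁ h₂ h =>
      cmpT G₁ G₂ T₁ T₂ r₁ r₂ S₁ S₂ h₁ h₂ h⟩

end Pool.Agent.Results.MP_f60e8a_al.AllNilpotentGroups
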